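import Pool.Agent.Work.MP_223b32_es.DefsZ

/-!
# Elliptic surfaces over a fixed finite field: definitions for the final form of the theorem
-/

namespace Pool.Agent.Work.ES

open Finset Polynomial

/-- The `α_i` remain distinct and different from `Q` over all finite extensions (of degree `N`). So the
Tate classes on `S` are the ones spanned by the zero section and the components of the fibres, and the
remaining Tate classes on `S × S` are spanned by the graphs of the powers of the Frobenius morphism. -/
def Distinct (q : ℕ) {M : ℕ} (α : Fin M → ℂ) : Prop :=
  ∀ N : ℕ, 0 < N → (Function.Injective fun i => α i ^ N) ∧ ∀ i, α i ^ N ≠ (q : ℂ) ^ N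

/-- The polynomials `D` of degree `n = 3 ^ k` of the family for which the eigenvalues do not have the
property `Distinct`, or for which the analytic Tate property of the powers of `S` or the independence
of other varieties (`Good`) fails in some codimension less than `3 ^ (k + 1 - j)`, or for which it
fails in some codimension, if `j = 1` and either `m = X ^ 3` and the characteristic is `1` modulo `3`,
or `S` has the property `OddSum`. -/
def exceptionalW (F : Type) [Field F] [Fintype F] (m : F[X]) (k j : ℕ) : Set F[X] :=
  {D | D ∈ fam F m (3 ^ k) ∧ ∃ α : Fin (2 * 3 ^ k) → ℂ, IsEig F m D α ∧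
    ¬ (Distinct (Fintype.card F) α ∧
      Good (Fintype.card F) k α (fun i => i < 3 ^ (k + 1 - j)) ∧
      (j = 1 → (m = X ^ 3 ∧ ringChar F % 3 = 1) ∨ OddSum (Fintype.card F) α →
        Good (Fintype.card F) k α fun _ => True))}

end Pool.Agent.Work.ES
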