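import Pool.Agent.Work.MP_223b32_es.DefsY

/-!
# Elliptic surfaces over a fixed finite field: definitions for the theorem in all codimensions
-/

namespace Pool.Agent.Work.ES

open Finset Polynomial

/-- A condition on the Newton polygon of `S`: with respect to an absolute value `v` of `ℂ` which extends
the `p`-adic one, `v (α_i) = v(q) ^ (a_i / h)`, and the sum of the `h - a_i` (over the `i` with `a_i < h`)
is odd. If `S` is ordinary then `h = 1`, and this sum is the geometric genus `(3 ^ k - 1) / 2`, which is
odd if and only if `k` is odd. -/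
def OddSum (q : ℕ) {M : ℕ} (α : Fin M → ℂ) : Prop :=
  ∃ (v : AbsoluteValue ℂ ℝ) (h : ℕ) (a : Fin M → ℕ), v q < 1 ∧ 0 < h ∧
    (∀ i, v (α i) ^ h = v q ^ a i) ∧ Odd (∑ i, (h - a i))

/-- The analytic Tate property of all powers of `S` in the codimensions `i` with `c i`, and for all
`b ≤ k` the independence of all powers of `S` and all `Y` with eigenvalues of degree less than
`3 ^ (b + 1)`, in the codimensions `i < 3 ^ (k - b)` (on the powers of `S`) with `c (2 * i)`. -/
def Good (q k : ℕ) {M : ℕ} (α : Fin M → ℂ) (c : ℕ → Prop) : Prop :=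
  TateS q α c ∧ ∀ b ≤ k, TateYS q (3 ^ (b + 1)) α fun i => i < 3 ^ (k - b) ∧ c (2 * i)

/-- The polynomials `D` of degree `n = 3 ^ k` of the family for which these properties fail in some
codimension less than `3 ^ (k + 1 - j)`; or for which they fail in some codimension, if `j = 1` and
either `m = X ^ 3` and the characteristic is `1` modulo `3`, or `S` has the property `OddSum`. -/
def exceptionalZ (F : Type) [Field F] [Fintype F] (m : F[X]) (k j : ℕ) : Set F[X] :=
  {D | D ∈ fam F m (3 ^ k) ∧ ∃ α : Fin (2 * 3 ^ k) → ℂ, IsEig F m D α ∧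
    ¬ (Good (Fintype.card F) k α (fun i => i < 3 ^ (k + 1 - j)) ∧
      (j = 1 → (m = X ^ 3 ∧ ringChar F % 3 = 1) ∨ OddSum (Fintype.card F) α →
        Good (Fintype.card F) k α fun _ => True))}

end Pool.Agent.Work.ES
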