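import Pool.Agent.Work.MP_223b32_ag.PowersDefs

/-!
# Elliptic surfaces over a fixed finite field: definitions

`F` is a finite field with `q` elements, `m` a monic cubic polynomial and `D` a monic polynomial
over `F`. The surface `w ^ 2 = D(t) (m(x) - t)` is fibred over the `t`-line in curves of genus one; let
`S` be its smooth projective model. It is an elliptic surface over the projective line, the
quadratic twist by `D` of the rational elliptic surface `y ^ 2 = m(x) - t`.
-/

namespace Pool.Agent.Work.ES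

open Polynomial Module Pool.Agent.Work.MP_223b32_ag

/-- The monic polynomials `D` of degree `n` such that `D(m(x))` is irreducible. -/
def fam (F : Type) [Field F] (m : F[X]) (n : ℕ) : Set F[X] :=
  {D | D.Monic ∧ D.natDegree = n ∧ Irreducible (D.comp m)}

/-- Point counts: for each finite extension `E` of `F` the affine surface
`w ^ 2 = D(t) (m(x) - t)` has `|E| ^ 2 + ∑ α_i ^ [E : F]` points over `E`. -/
def IsFrobS (F : Type) [Field F] [Fintype F] (m D : F[X]) {M : ℕ} (α : Fin M → ℂ) : Prop :=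
  ∀ (E : Type) [Field E] [Fintype E] [Algebra F E],
    (Nat.card {P : E × E × E // P.2.2 ^ 2 = aeval P.2.1 D * (aeval P.1 m - P.2.1)} : ℂ) =
      (Fintype.card E : ℂ) ^ 2 + ∑ i, α i ^ Module.finrank F E

/-- `α` is the family of the Frobenius eigenvalues of `S` on the part of the second cohomology
orthogonal to the zero section and the components of the fibres: the characteristic polynomial is
integral, the eigenvalues are stable under `z ↦ q ^ 2 / z`, and they give the point counts. -/
structure IsEig (F : Type) [Field F] [Fintype F] (m D : F[X]) {M : ℕ} (α : Fin M → ℂ) : Prop where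
  integral : ∃ P : ℤ[X], P.map (Int.castRingHom ℂ) = ∏ i, (X - C (α i))
  symm : ∀ i, ∃ j, α i * α j = (Fintype.card F : ℂ) ^ 2
  frob : IsFrobS F m D α

section Coh

variable {H : Type} [CommRing H] [Algebra ℂ H]

/-- The graded ring `H = ⨁ 𝒜 i`, `𝒜 i = H^(2i)(S)`, with the Frobenius endomorphism `φ` over the
extension of degree `N` of the field with `q` elements, over which the components of the fibres are
defined: `φ` is graded and semisimple, it is multiplication by `Q ^ i` on `𝒜 i` for `i ≠ 1`, `Q = q ^ N`,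
and its eigenvalues on `𝒜 1` are `Q` or `α_i ^ N`. -/
structure IsCohS (q N : ℕ) {M : ℕ} (α : Fin M → ℂ) (𝒜 : ℕ → Submodule ℂ H) (φ : H →ₐ[ℂ] H) :
    Prop where
  map_mem : ∀ i, ∀ x ∈ 𝒜 i, φ x ∈ 𝒜 i
  isSemisimple : Module.End.IsSemisimple φ.toLinearMap
  eq_of_ne_one : ∀ i ≠ 1, ∀ x ∈ 𝒜 i, φ x = ((q ^ N : ℕ) : ℂ) ^ i • x
  eigenvalue : ∀ μ : ℂ, ∀ x ∈ 𝒜 1, x ≠ 0 → φ x = μ • x → μ = (q ^ N : ℕ) ∨ ∃ i, μ = α i ^ N

end Coh

/-- The analytic Tate property of all powers `S ^ r` over all finite extensions (of degree `N`, as in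
`IsCohS`) in the codimensions `i` with `c i`: each Tate class of codimension `i` on `S ^ r` is a
polynomial in pullbacks of Tate classes on `S × S`, and the `L`-function
`det(1 - Q^(-s) Frob | H^(2i)(S ^ r))^(-1)` has at `s = i` a pole whose order is the dimension of the
space of these classes. -/
def TateS (q : ℕ) {M : ℕ} (α : Fin M → ℂ) (c : ℕ → Prop) : Prop :=
  ∀ N : ℕ, 0 < N → ∀ (H : Type) [CommRing H] [Algebra ℂ H] [Module.Finite ℂ H]
    (𝒜 : ℕ → Submodule ℂ H) [GradedAlgebra 𝒜] (φ : H →ₐ[ℂ] H) (h : IsCohS q N α 𝒜 φ) (r i : ℕ),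
    c i →
      (∀ z ∈ powTate 𝒜 φ (q ^ N : ℕ) r i, z ∈ genAlg 𝒜 φ (q ^ N : ℕ) r) ∧
      HasPoleOrder (powL h.map_mem (q ^ N : ℕ) r i) i
        (finrank ℂ (powTate 𝒜 φ (q ^ N : ℕ) r i))

/-- The polynomials `D` of the family for which this fails. -/
def exceptional (F : Type) [Field F] [Fintype F] (m : F[X]) (n : ℕ) (c : ℕ → Prop) : Set F[X] :=
  {D | D ∈ fam F m n ∧ ∃ α : Fin (2 * n) → ℂ, IsEig F m D α ∧ ¬ TateS (Fintype.card F) α c}

end Pool.Agent.Work.ES
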