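import Pool.Agent.Work.MP_223b32_es.Defs
import Pool.Agent.Work.MP_223b32_t3.Defs

/-!
# Elliptic surfaces over a fixed finite field: definitions for the products with other varieties

`Y` is a smooth projective variety over the field `F` with `q` elements, `W` one of its cohomology
groups (with complex coefficients) and `u` its Frobenius endomorphism.
-/

namespace Pool.Agent.Work.ES

open Polynomial Module TensorProduct Pool.Agent.Work.MP_223b32_ag Pool.Agent.Work.T3

/-- Some power of `z` is, up to a power of `q`, a product of algebraic integers of degree less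
than `B`. -/
def Small (q B : ℕ) (z : ℂ) : Prop :=
  ∃ M k : ℕ, 0 < M ∧ ∃ t : Multiset ℂ,
    (∀ γ ∈ t, ∃ P : ℤ[X], P.Monic ∧ aeval γ P = 0 ∧ P.natDegree < B) ∧
    z ^ M * (q : ℂ) ^ k = t.prod

section

variable {W V : Type} [AddCommGroup W] [Module ℂ W] [Module.Finite ℂ W] [AddCommGroup V]
  [Module ℂ V] [Module.Finite ℂ V]

/-- For `u` the Frobenius endomorphism of `W = H^(2c)(Y)` and `f` the one of `V = H^(2i)(S ^ r)`, over
the field with `Q` elements: the Tate classes in `W ⊗ V` are the sums of products of Tate classes in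
`W` and in `V`, and the orders of the poles multiply (the pole of the `L`-function of `V` has order
the dimension of its space of Tate classes). -/
def IndepS (u : Module.End ℂ W) (f : Module.End ℂ V) (Q : ℝ) (c i : ℕ) : Prop :=
  Tate (TensorProduct.map u f) Q (c + i) =
      LinearMap.range (TensorProduct.map (Tate u Q c).subtype (Tate f Q i).subtype) ∧
  ∀ p : ℕ, HasPoleOrder (LL u Q) c p →
      HasPoleOrder (LL (TensorProduct.map u f) Q) ((c : ℝ) + i) (p * finrank ℂ (Tate f Q i))

end

instance instFinitePowCoh (H : Type) [CommRing H] [Algebra ℂ H] [Module.Finite ℂ H] (r : ℕ) :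
    Module.Finite ℂ (PowCoh H r) :=
  Module.Finite.of_basis (powBasis (Module.finBasis ℂ H) r)

/-- All powers `S ^ r` are, in the codimensions `i` with `b i`, independent of all `Y` whose
Frobenius eigenvalues over `F` are `Small q B`, over all finite extensions of `F` (of degree `N`, as in
`IsCohS`). -/
def TateYS (q B : ℕ) {M : ℕ} (α : Fin M → ℂ) (b : ℕ → Prop) : Prop :=
  ∀ N : ℕ, 0 < N → ∀ (H : Type) [CommRing H] [Algebra ℂ H] [Module.Finite ℂ H]
    (𝒜 : ℕ → Submodule ℂ H) [GradedAlgebra 𝒜] (φ : H →ₐ[ℂ] H) (h : IsCohS q N α 𝒜 φ) (r i : ℕ),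
    b i → ∀ (W : Type) [AddCommGroup W] [Module ℂ W] [Module.Finite ℂ W] (u : Module.End ℂ W),
      (∀ z, u.HasEigenvalue z → Small q B z) → ∀ c : ℕ,
        IndepS (u ^ N) (powFrobDeg h.map_mem r i) (q ^ N : ℕ) c i

/-- The polynomials `D` of degree `n = 3 ^ k` of the family for which the analytic Tate property of the
powers of `S` fails in some codimension `i` with `c i`, or for which for some `b ≤ k` the powers of `S`
are not independent of the `Y` with eigenvalues of degree less than `3 ^ (b + 1)`, in some codimension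
`i < 3 ^ (k - b)` (on the powers of `S`) with `c (2 * i)`. -/
def exceptionalY (F : Type) [Field F] [Fintype F] (m : F[X]) (k : ℕ) (c : ℕ → Prop) : Set F[X] :=
  {D | D ∈ fam F m (3 ^ k) ∧ ∃ α : Fin (2 * 3 ^ k) → ℂ, IsEig F m D α ∧
    ¬ (TateS (Fintype.card F) α c ∧
      ∀ b ≤ k, TateYS (Fintype.card F) (3 ^ (b + 1)) α fun i => i < 3 ^ (k - b) ∧ c (2 * i))}

end Pool.Agent.Work.ES
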