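import Pool.Agent.Work.MP_223b32_es.Defs
import Pool.Agent.Work.MP_223b32_ag.Powers
import Pool.Agent.Work.MP_223b32_tl.Interface

/-!
# Elliptic surfaces over a fixed finite field: interface

Every block is one Prop `Stmt_X`; see `BLUEPRINT.md` for the proofs. The file
`Pool/Agent/Work/MP_223b32_es_<seat>/<X>.lean` ends with `theorem stmt_X : Stmt_X` in the namespace
`Pool.Agent.Work.ES` (with the used blocks as hypotheses, e.g. `theorem stmt_VEC (h : Stmt_RU)`).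
-/

namespace Pool.Agent.Work.ES

open Finset Polynomial Module Pool.Agent.Work.MP_223b32_ag Pool.Agent.Work.TC
open Pool.Agent.Work.TL (AA Om Stmt_FA)

section Defs

/-- `m_c = X ^ 3 - 3 c X`. -/
noncomputable def mm {F : Type} [Field F] (c : F) : F[X] := X ^ 3 - C (3 * c) * X

/-- `h_c(w) = w + c ^ 3 / w`. -/
def hc {F K : Type} [Field F] [Field K] [Algebra F K] (c : F) (w : K) : K :=
  w + algebraMap F K (c ^ 3) / w

/-- `w` is not a cube (`|K| = 1` modulo `3`). -/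
def NC {K : Type} [Field K] [Fintype K] (w : K) : Prop :=
  w ≠ 0 ∧ w ^ ((Fintype.card K - 1) / 3) ≠ 1

/-- `A_r = w ^ ((q ^ r - 1) / 3)`. -/
def Aw (F : Type) {K : Type} [Field F] [Fintype F] [Field K] (w : K) (r : ℕ) : K :=
  w ^ ((Fintype.card F ^ r - 1) / 3)

/-- The bit `e_r`: it is `1` if `1 + A_r + A_r ^ 2` is a nonsquare of `K`. -/
noncomputable def ps (F : Type) {K : Type} [Field F] [Fintype F] [Field K] [Fintype K]
    [DecidableEq K] (w : K) (r : ℕ) : ℕ :=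
  if quadraticChar K (1 + Aw F w r + Aw F w r ^ 2) = -1 then 1 else 0

/-- All the bits `e_r`, `r` of exact `3`-adic valuation `k - i`, vanish. -/
def BadAt (F : Type) {K : Type} [Field F] [Fintype F] [Field K] [Fintype K]
    [DecidableEq K] (k i : ℕ) (w : K) : Prop :=
  ∀ r : ℕ, 0 < r → r < 3 ^ (k + 1) → 3 ^ (k - i) ∣ r → ¬ 3 ^ (k - i + 1) ∣ r → ps F w r = 0

/-- The sum of the `r`-th powers of the roots of `X ^ (2 n) + X ^ n + 1`. -/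
def cr (n r : ℕ) : ℤ := if 3 * n ∣ r then 2 * n else if n ∣ r then -n else 0

/-- The character sum `∑ χ(D(t) (m(x) - t))` over `E`. -/
noncomputable def NN {F : Type} (E : Type) [Field F] [Field E] [Fintype E] [DecidableEq E]
    [Algebra F E] (m D : F[X]) : ℤ :=
  ∑ x : E, ∑ t : E, quadraticChar E (aeval t D * (aeval x m - t))

/-- The Frobenius endomorphism `x ↦ x ^ 2` as a linear map over the field with two elements. -/
noncomputable def Fr : Module.End (ZMod 2) Om :=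
  (frobenius Om 2).toAddMonoidHom.toZModLinearMap 2

/-- `(X ^ n - 1) / Φ_(3 ^ i) = (X ^ n - 1) / (X ^ (2 * 3 ^ (i - 1)) + X ^ (3 ^ (i - 1)) + 1)`, `n = 3 ^ k`. -/
noncomputable def cof (k i : ℕ) : (ZMod 2)[X] :=
  ∏ l ∈ (range (k + 1)).erase i, cyclotomic (3 ^ l) (ZMod 2)

end Defs

/-! ### Part 1: points of the surface -/

/-- PT: the number of points. -/
def Stmt_PT : Prop :=
  ∀ (F E : Type) [Field F] [Field E] [Fintype E] [DecidableEq E] [Algebra F E],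
    ringChar E ≠ 2 → ∀ m D : F[X],
      (Nat.card {P : E × E × E // P.2.2 ^ 2 = aeval P.2.1 D * (aeval P.1 m - P.2.1)} : ℤ) =
        (Fintype.card E : ℤ) ^ 2 + NN E m D

/-- CSM: sums of quadratic characters modulo `4`. -/
def Stmt_CSM : Prop :=
  ∀ (E : Type) [Field E] [Fintype E] [DecidableEq E], ringChar E ≠ 2 →
    ∀ (ι : Type) [Fintype ι] (v : ι → E),
      ∑ i, quadraticChar E (v i) ≡ ((univ.filter fun i => v i ≠ 0).card : ℤ) - 1 +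
        quadraticChar E (∏ i ∈ univ.filter (fun i => v i ≠ 0), v i) [ZMOD 4]

/-- ZER: zeros of irreducible polynomials. -/
def Stmt_ZER : Prop :=
  ∀ (F E : Type) [Field F] [Fintype F] [Field E] [Fintype E] [DecidableEq E] [Algebra F E]
    (G : F[X]), G.Monic → Irreducible G →
      (univ.filter fun x : E => aeval x G = 0).card =
        if G.natDegree ∣ Module.finrank F E then G.natDegree else 0

/-- PTS (from CSM, ZER): the character sum modulo `4`. -/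
def Stmt_PTS : Prop :=
  ∀ (F E : Type) [Field F] [Fintype F] [Field E] [Fintype E] [DecidableEq E] [Algebra F E],
    ringChar F ≠ 2 → ∀ (n : ℕ) (m D : F[X]), Odd n → D.Monic → D.natDegree = n → m.Monic →
    m.natDegree = 3 → Irreducible (D.comp m) →
      (NN E m D ≡ cr n (Module.finrank F E) [ZMOD 2]) ∧
      (Even (Module.finrank F E) → NN E m D ≡ cr n (Module.finrank F E) [ZMOD 4]) ∧
      (Odd (Module.finrank F E) → ¬ n ∣ Module.finrank F E →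
        (∀ t : E, aeval t D ≠ 0) ∧
        NN E m D ≡ 1 - quadraticChar E ((∏ t : E, aeval t D) * ∏ x : E, aeval (aeval x m) D)
          [ZMOD 4])

/-- FORM: the bit. -/
def Stmt_FORM : Prop :=
  ∀ (F K E : Type) [Field F] [Fintype F] [Field K] [Fintype K] [DecidableEq K] [Algebra F K]
    [Field E] [Fintype E] [DecidableEq E] [Algebra F E], Fintype.card F % 6 = 1 →
    Odd (Module.finrank F K) → Odd (Module.finrank F E) → ∀ (c : F) (w : K), NC w →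
    (minpoly F (hc c w)).natDegree = Module.finrank F K →
    (∀ t : E, aeval t (minpoly F (hc c w)) ≠ 0) →
      quadraticChar E ((∏ t : E, aeval t (minpoly F (hc c w))) *
          ∏ x : E, aeval (aeval x (mm c)) (minpoly F (hc c w))) =
        quadraticChar K (1 + Aw F w (Module.finrank F E) + Aw F w (Module.finrank F E) ^ 2)

/-- PSYM: symmetry of the bits. -/
def Stmt_PSYM : Prop :=
  ∀ (F K : Type) [Field F] [Fintype F] [Field K] [Fintype K] [DecidableEq K] [Algebra F K],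
    Fintype.card F % 6 = 1 → ∀ w : K, w ≠ 0 → ∀ r : ℕ, 0 < r → r < 3 * Module.finrank F K →
      ps F w (3 * Module.finrank F K - r) = ps F w r

/-- PAR1: the polynomials given by noncubes. -/
def Stmt_PAR1 : Prop :=
  ∀ (F K : Type) [Field F] [Fintype F] [Field K] [Fintype K] [Algebra F K],
    Fintype.card F % 6 = 1 → ∀ k : ℕ, 1 ≤ k → Module.finrank F K = 3 ^ k →
    ∀ (c : F) (w : K), NC w → (minpoly F (hc c w)).natDegree = 3 ^ k ∧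
      Irreducible ((minpoly F (hc c w)).comp (mm c))

/-- PAR2 (from PAR1): the number of these polynomials. -/
def Stmt_PAR2 : Prop :=
  ∀ (F K : Type) [Field F] [Fintype F] [DecidableEq F] [Field K] [Fintype K] [Algebra F K],
    Fintype.card F % 6 = 1 → ∀ k : ℕ, 1 ≤ k → Module.finrank F K = 3 ^ k →
    ∀ (c : F) (P : F[X] → Prop),
      (if c = 0 then 1 else 2) * 3 ^ k * {D | D ∈ fam F (mm c) (3 ^ k) ∧ P D}.ncard =
        Nat.card {w : K // NC w ∧ P (minpoly F (hc c w))}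

/-- NCC: the number of noncubes. -/
def Stmt_NCC : Prop :=
  ∀ (K : Type) [Field K] [Fintype K], Fintype.card K % 3 = 1 →
    3 * Nat.card {w : K // NC w} = 2 * (Fintype.card K - 1)

/-! ### Part 2: the `2`-adic part -/

/-- RED4: the reduction of the eigenvalues, from the power sums modulo `4`. -/
def Stmt_RED4 : Prop :=
  ∀ (ρ : AA →+* Om) (n q : ℕ), Odd n → Odd q → ∀ (α : Fin (2 * n) → ℂ) (P : ℤ[X]),
    P.map (Int.castRingHom ℂ) = ∏ i, (X - C (α i)) → (∀ i, ∃ j, α i * α j = (q : ℂ) ^ 2) →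
    ∀ (N : ℕ → ℤ) (e : ℕ → ℕ), (∀ r, 1 ≤ r → (N r : ℂ) = ∑ i, α i ^ r) →
    (∀ r, 1 ≤ r → N r ≡ cr n r [ZMOD 2]) → (∀ r, 1 ≤ r → Even r → N r ≡ cr n r [ZMOD 4]) →
    (∀ r, Odd r → ¬ n ∣ r → N r ≡ 2 * e r [ZMOD 4]) →
    ∃ (α' w : Fin (2 * n) → AA) (Z : (ZMod 2)[X]), (∀ i, (α' i : ℂ) = α i) ∧
      (∀ i, α' i ^ (3 * n) = 1 + 2 * w i) ∧ (∀ i, ρ (w i) = aeval (ρ (α' i)) Z) ∧
      (∀ i, ρ (α' i) ^ (3 * n) = 1 ∧ ρ (α' i) ^ n ≠ 1) ∧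
      (Function.Injective fun i => ρ (α' i)) ∧
      ∀ r, Odd r → ¬ n ∣ r → ∑ i, ρ (α' i) ^ r * ρ (w i) = (e r : Om)

/-- VEC (from RU): a multiplicative relation, modulo `4`. -/
def Stmt_VEC : Prop :=
  ∀ (ρ : AA →+* Om) (n q : ℕ), Odd q → 0 < n → ∀ (ι : Type) [Fintype ι] (α' w : ι → AA),
    (∀ i, α' i ^ (3 * n) = 1 + 2 * w i) → ∀ (v : ι → ℤ) (M : ℕ), 0 < M →
    (∏ i, ((α' i : ℂ) / q) ^ v i) ^ M = 1 →
      ∑ i ∈ univ.filter (fun i => Odd (v i)), ρ (w i) = 0 ∨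
      ∑ i ∈ univ.filter (fun i => Odd (v i)), ρ (w i) = 1

/-- MREL (from VEC): the same for multisets. -/
def Stmt_MREL : Prop :=
  ∀ (ρ : AA →+* Om) (n q : ℕ), Odd q → 0 < n → ∀ (ι : Type) [Fintype ι] [DecidableEq ι]
    (α' w : ι → AA), (∀ i, α' i ^ (3 * n) = 1 + 2 * w i) → (∀ i, ρ (α' i) ^ n ≠ 1) →
    (∀ i, ∃ j, α' i * α' j = (q : AA) ^ 2) → ∀ s : Multiset ι, s ≠ 0 → ∀ M : ℕ, 0 < M →
    (s.map fun i => (α' i : ℂ)).prod ^ M = ((q : ℂ) ^ s.card) ^ M →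
      (∃ i j t, s = i ::ₘ j ::ₘ t ∧ α' i * α' j = (q : AA) ^ 2) ∨
      ∃ I : Finset ι, I.Nonempty ∧ I.card ≤ s.card ∧
        (∀ i ∈ I, ∀ j ∈ I, α' i * α' j ≠ (q : AA) ^ 2) ∧
        (∑ i ∈ I, ρ (w i) = 0 ∨ ∑ i ∈ I, ρ (w i) = 1)

/-! ### Part 3: the module over `F_2[X]` -/

/-- ORB2: the primitive roots of unity of order `3 ^ (k + 1)` are the conjugates of one of them. -/
def Stmt_ORB2 : Prop :=
  ∀ (k : ℕ) (ξ : Om), ξ ^ 3 ^ (k + 1) = 1 → ξ ^ 3 ^ k ≠ 1 →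
    ξ ^ 2 ^ 3 ^ k = ξ⁻¹ ∧
    (∀ x : Om, x ^ 3 ^ (k + 1) = 1 ∧ x ^ 3 ^ k ≠ 1 ↔ ∃ s < 2 * 3 ^ k, x = ξ ^ 2 ^ s) ∧
    ∀ s < 2 * 3 ^ k, ∀ t < 2 * 3 ^ k, ξ ^ 2 ^ s = ξ ^ 2 ^ t → s = t

/-- CYC3: the factors of `X ^ n - 1` modulo `2`. -/
def Stmt_CYC3 : Prop :=
  (∀ i : ℕ, Irreducible (cyclotomic (3 ^ i) (ZMod 2))) ∧
  (∀ i j : ℕ, i ≠ j → IsCoprime (cyclotomic (3 ^ i) (ZMod 2)) (cyclotomic (3 ^ j) (ZMod 2))) ∧
  (∀ k : ℕ, ∏ l ∈ range (k + 1), cyclotomic (3 ^ l) (ZMod 2) = X ^ 3 ^ k - 1) ∧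
  ∀ i : ℕ, 1 ≤ i →
    cyclotomic (3 ^ i) (ZMod 2) = X ^ (2 * 3 ^ (i - 1)) + X ^ 3 ^ (i - 1) + 1

/-- MODT (from ORB2, CYC3): vanishing of a component gives vanishing of the traces. -/
def Stmt_MODT : Prop :=
  ∀ (k : ℕ) (S : Finset Om), (∀ x, x ∈ S ↔ x ^ 3 ^ (k + 1) = 1 ∧ x ^ 3 ^ k ≠ 1) →
    ∀ Z : (ZMod 2)[X], (∀ x ∈ S, aeval x⁻¹ Z = aeval x Z) → ∀ ξ ∈ S, ∀ i : ℕ, 1 ≤ i → i ≤ k →
    aeval Fr (cof k i) (aeval ξ Z) = 0 →
      ∀ r : ℕ, 3 ^ (k - i) ∣ r → ¬ 3 ^ (k - i + 1) ∣ r → ∑ x ∈ S, x ^ r * aeval x Z = 0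

/-- MODF (from CYC3): a relation with few terms. -/
def Stmt_MODF : Prop :=
  ∀ (k j : ℕ), 1 ≤ j → j ≤ k → ∀ (W : Om) (f : (ZMod 2)[X]), f ≠ 0 → f.natDegree < 3 ^ k →
    aeval Fr ((X - 1) * f) W = 0 → aeval Fr (X ^ 3 ^ k - 1 : (ZMod 2)[X]) W = 0 →
    f.support.card < 3 ^ (k + 1 - j) → ∃ i, j ≤ i ∧ i ≤ k ∧ aeval Fr (cof k i) W = 0

/-- MODU (from ORB2, MODT, MODF). -/
def Stmt_MODU : Prop :=
  ∀ (k : ℕ) (S : Finset Om), (∀ x, x ∈ S ↔ x ^ 3 ^ (k + 1) = 1 ∧ x ^ 3 ^ k ≠ 1) →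
    ∀ Z : (ZMod 2)[X], (∀ x ∈ S, aeval x⁻¹ Z = aeval x Z) → ∀ I ⊆ S, I.Nonempty →
    (∀ x ∈ I, x⁻¹ ∉ I) → (∑ x ∈ I, aeval x Z = 0 ∨ ∑ x ∈ I, aeval x Z = 1) →
    ∀ j : ℕ, 1 ≤ j → j ≤ k → I.card < 3 ^ (k + 1 - j) →
      ∃ i, j ≤ i ∧ i ≤ k ∧ ∀ r : ℕ, 3 ^ (k - i) ∣ r → ¬ 3 ^ (k - i + 1) ∣ r →
        ∑ x ∈ S, x ^ r * aeval x Z = 0

/-! ### Part 4: counting -/

/-- The polynomials `1 + A + A ^ 2` and `1 + ω A + ω ^ 2 A ^ 2`. -/
noncomputable def gg {K : Type} [Field K] (ω : K) (ε : Bool) : K[X] :=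
  if ε then 1 + C ω * X + C (ω ^ 2) * X ^ 2 else 1 + X + X ^ 2

/-- `H(y) = ∏ g_ε(w₀ ^ ((q ^ u - 1) / 3) y ^ (q ^ u - 1))`. -/
noncomputable def HH (q : ℕ) {K : Type} [Field K] (ω w₀ : K) (S : Finset (ℕ × Bool)) : K[X] :=
  ∏ p ∈ S, (gg ω p.2).comp (C (w₀ ^ ((q ^ p.1 - 1) / 3)) * X ^ (q ^ p.1 - 1))

/-- SQF3: these polynomials are not squares. -/
def Stmt_SQF3 : Prop :=
  ∀ (F K : Type) [Field F] [Fintype F] [Field K] [Fintype K] [Algebra F K],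
    Fintype.card F % 6 = 1 → ∀ ω w₀ : K, ω ^ 2 + ω + 1 = 0 → w₀ ≠ 0 →
    ∀ S : Finset (ℕ × Bool), S.Nonempty → (∀ p ∈ S, 1 ≤ p.1) →
      ¬ ∃ (c : K) (R : K[X]), HH (Fintype.card F) ω w₀ S = C c * R ^ 2

/-- CHS3 (from WEIL, SQF3): the correlations of the bits. -/
def Stmt_CHS3 : Prop :=
  ∀ (F K : Type) [Field F] [Fintype F] [Field K] [Fintype K] [DecidableEq K] [Algebra F K],
    Fintype.card F % 6 = 1 → ∀ ω : K, ω ^ 2 + ω + 1 = 0 → ∀ U : ℕ,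
    2500 * Fintype.card F ^ (2 * U) ≤ Fintype.card K →
    ∀ S : Finset (ℕ × Bool), S.Nonempty → (∀ p ∈ S, 1 ≤ p.1 ∧ p.1 ≤ U) →
      |((∑ w ∈ univ.filter (fun w : K => w ^ ((Fintype.card K - 1) / 3) = ω),
          ∏ p ∈ S, quadraticChar K ((gg ω p.2).eval (Aw F w p.1)) : ℤ) : ℝ)| ≤
        14 * (Fintype.card F : ℝ) ^ U * √(Fintype.card K)

/-- CNT3 (from CHS3, NCC): the number of `w` for which given bits vanish. -/
def Stmt_CNT3 : Prop :=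
  ∀ (F K : Type) [Field F] [Fintype F] [Field K] [Fintype K] [DecidableEq K] [Algebra F K],
    Fintype.card F % 6 = 1 → ∀ k : ℕ, Module.finrank F K = 3 ^ k →
    ∀ U : ℕ, 2500 * Fintype.card F ^ (2 * U) ≤ Fintype.card K →
    ∀ T : Finset ℕ, (∀ u ∈ T, 1 ≤ u ∧ u ≤ U) →
      (Nat.card {w : K // NC w ∧
          ∀ u ∈ T, ps F w u = 0 ∧ ps F w (Module.finrank F K + u) = 0} : ℝ) ≤
        2 / 3 * Fintype.card K / 4 ^ T.card +
          28 * (Fintype.card F : ℝ) ^ U * √(Fintype.card K)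

/-- NUM: the numerical inequality (`n = 3 ^ k`; `|T_1| = 1`, `|T_i| = 2 * 3 ^ (i - 2)`). -/
def Stmt_NUM : Prop :=
  ∀ (q : ℝ) (k j : ℕ), 7 ≤ q → 4 ≤ k → 1 ≤ j → j ≤ k →
    ∑ i ∈ Icc j k, (2 / 3 * q ^ 3 ^ k / 4 ^ (if i = 1 then 1 else 2 * 3 ^ (i - 2)) +
        28 * q ^ 3 ^ (k - 1) * √(q ^ 3 ^ k)) ≤
      2 / 3 * (1 / 2) ^ 3 ^ (j - 1) * (2 / 3 * (q ^ 3 ^ k - 1))

/-- CNTB (from CNT3, NCC, NUM): the number of bad `w`. -/
def Stmt_CNTB : Prop :=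
  ∀ (F K : Type) [Field F] [Fintype F] [Field K] [Fintype K] [DecidableEq K] [Algebra F K],
    Fintype.card F % 6 = 1 → ∀ k : ℕ, 4 ≤ k → Module.finrank F K = 3 ^ k →
    ∀ j : ℕ, 1 ≤ j → j ≤ k →
      (Nat.card {w : K // NC w ∧ ∃ i, j ≤ i ∧ i ≤ k ∧ BadAt F k i w} : ℝ) ≤
        2 / 3 * (1 / 2) ^ 3 ^ (j - 1) * (Nat.card {w : K // NC w} : ℝ)

/-! ### Part 5: assembly of the first part -/

/-- FLAB: linear algebra, with a bound for the codimension. -/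
def Stmt_FLAB : Prop :=
  ∀ (H : Type) [CommRing H] [Algebra ℂ H] [Module.Finite ℂ H] (𝒜 : ℕ → Submodule ℂ H)
    [GradedAlgebra 𝒜] (φ : H →ₐ[ℂ] H) (hφ : ∀ i, ∀ x ∈ 𝒜 i, φ x ∈ 𝒜 i),
    Module.End.IsSemisimple φ.toLinearMap → ∀ (Q : ℕ), 1 < Q → ∀ P : ℂ → Prop,
    (∀ i ≠ 1, ∀ x ∈ 𝒜 i, φ x = (Q : ℂ) ^ i • x) →
    (∀ μ : ℂ, ∀ x ∈ 𝒜 1, x ≠ 0 → φ x = μ • x → μ = Q ∨ P μ) → ∀ i : ℕ,
    (∀ s : Multiset ℂ, (∀ z ∈ s, P z) → s ≠ 0 → s.card ≤ i → s.prod = (Q : ℂ) ^ s.card →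
      ∃ x y t, s = x ::ₘ y ::ₘ t ∧ x * y = (Q : ℂ) ^ 2) → ∀ r : ℕ,
    powTate 𝒜 φ Q r i ≤ Subalgebra.toSubmodule (genAlg 𝒜 φ Q r) ∧
      HasPoleOrder (powL hφ Q r i) i (finrank ℂ (powTate 𝒜 φ Q r i))

/-- DATA3 (from PT, PTS, FORM, PAR1, RED4, RHO): the eigenvalues of one surface. -/
def Stmt_DATA3 : Prop :=
  ∀ (F K : Type) [Field F] [Fintype F] [Field K] [Fintype K] [DecidableEq K] [Algebra F K],
    Fintype.card F % 6 = 1 → ∀ k : ℕ, 1 ≤ k → Module.finrank F K = 3 ^ k →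
    ∀ (c : F) (w : K), NC w → ∀ α : Fin (2 * 3 ^ k) → ℂ,
    IsEig F (mm c) (minpoly F (hc c w)) α → ∀ ρ : AA →+* Om,
    ∃ (α' v : Fin (2 * 3 ^ k) → AA) (Z : (ZMod 2)[X]) (S : Finset Om),
      (∀ i, (α' i : ℂ) = α i) ∧ (∀ i, α' i ^ (3 * 3 ^ k) = 1 + 2 * v i) ∧
      (∀ i, ρ (v i) = aeval (ρ (α' i)) Z) ∧
      (∀ x, x ∈ S ↔ x ^ 3 ^ (k + 1) = 1 ∧ x ^ 3 ^ k ≠ 1) ∧
      (∀ i, ρ (α' i) ∈ S) ∧ (Function.Injective fun i => ρ (α' i)) ∧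
      (∀ x ∈ S, ∃ i, ρ (α' i) = x) ∧ (∀ x ∈ S, aeval x⁻¹ Z = aeval x Z) ∧
      (∀ i j, α' i * α' j = (Fintype.card F : AA) ^ 2 ↔ ρ (α' j) = (ρ (α' i))⁻¹) ∧
      (∀ τ : AA ≃+* AA, ∀ i, ∃ j, τ (α' i) = α' j) ∧
      ∀ r, Odd r → ¬ 3 ^ k ∣ r → ∑ x ∈ S, x ^ r * aeval x Z = (ps F w r : Om)

/-- ONE3 (from DATA3, RHO, MREL, MODU, PSYM, FLAB): the Tate property. -/
def Stmt_ONE3 : Prop :=
  ∀ (F K : Type) [Field F] [Fintype F] [Field K] [Fintype K] [DecidableEq K] [Algebra F K],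
    Fintype.card F % 6 = 1 → ∀ k : ℕ, 1 ≤ k → Module.finrank F K = 3 ^ k →
    ∀ (c : F) (w : K), NC w → ∀ α : Fin (2 * 3 ^ k) → ℂ,
    IsEig F (mm c) (minpoly F (hc c w)) α → ∀ j : ℕ, 1 ≤ j → j ≤ k →
    (∀ i, j ≤ i → i ≤ k → ¬ BadAt F k i w) →
      TateS (Fintype.card F) α fun i => i < 3 ^ (k + 1 - j)

/-- TRL: reduction of all cubic polynomials to the `m_c`. -/
def Stmt_TRL : Prop :=
  ∀ (F : Type) [Field F] [Fintype F], Fintype.card F % 6 = 1 → ∀ m : F[X], m.Monic →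
    m.natDegree = 3 → ∃ (c e : F), ∀ n : ℕ, 1 ≤ n →
      (∀ D : F[X], D ∈ fam F m n ↔ D.comp (X + C e) ∈ fam F (mm c) n) ∧
      ∀ (D : F[X]) (M : ℕ) (α : Fin M → ℂ),
        IsEig F m D α ↔ IsEig F (mm c) (D.comp (X + C e)) α

/-- MAINA (from ONE3, CNTB, PAR1, PAR2, NCC, EXT, TRL): the first part of the theorem. -/
def Stmt_MAINA : Prop :=
  ∀ (F : Type) [Field F] [Fintype F], Fintype.card F % 6 = 1 → ∀ k : ℕ, 4 ≤ k →
    ∀ m : F[X], m.Monic → m.natDegree = 3 → 0 < (fam F m (3 ^ k)).ncard ∧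
      ∀ j : ℕ, 1 ≤ j → j ≤ k →
        ((exceptional F m (3 ^ k) fun i => i < 3 ^ (k + 1 - j)).ncard : ℝ) ≤
          2 / 3 * (1 / 2) ^ 3 ^ (j - 1) * ((fam F m (3 ^ k)).ncard : ℝ)

/-! ### Part 6: existence for `m = X ^ 3` -/

section GL1

variable {F K : Type} [Field F] [Field K] [Algebra F K]

/-- The quadratic character with complex values. -/
noncomputable def qc (F : Type) [Field F] [Fintype F] [DecidableEq F] : MulChar F ℂ :=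
  (quadraticChar F).ringHomComp (Int.castRingHom ℂ)

/-- `X(h) = χ_K(h(a)) ψ(h(0))`. -/
noncomputable def XX [Fintype K] [DecidableEq K] (ψ : MulChar F ℂ) (a : K) : F[X] →* ℂ where
  toFun h := (quadraticChar K (aeval a h) : ℂ) * ψ (h.coeff 0)
  map_one' := by simp
  map_mul' x y := by
    rw [map_mul, map_mul, mul_coeff_zero, map_mul]
    push_cast
    ring

/-- The sum over the monic polynomials of degree `m`. -/
noncomputable def msumC [Fintype F] (χ : F[X] →* ℂ) (m : ℕ) : ℂ := ∑ c : Fin m → F, χ (mon m c)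

/-- The coefficients of the logarithmic derivative. -/
noncomputable def lamC (χ : F[X] →* ℂ) (k : ℕ) : ℂ :=
  ∑ᶠ π ∈ {π : F[X] | π.Monic ∧ Irreducible π ∧ π.natDegree ∣ k},
    (π.natDegree : ℂ) * χ π ^ (k / π.natDegree)

end GL1

/-- EPC: copy of EP with complex values. -/
def Stmt_EPC : Prop :=
  ∀ (F : Type) [Field F] [Fintype F] (χ : F[X] →* ℂ) (m : ℕ), 1 ≤ m →
    (m : ℂ) * msumC χ m = ∑ k ∈ Icc 1 m, lamC χ k * msumC χ (m - k)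

/-- LEC: copy of LE with complex values. -/
def Stmt_LEC : Prop :=
  ∀ (F E : Type) [Field F] [Fintype F] [Field E] [Fintype E] [Algebra F E] (χ : F[X] →* ℂ),
    ∑ x : E, χ (minpoly F x ^ (Module.finrank F E / (minpoly F x).natDegree)) =
      lamC χ (Module.finrank F E)

/-- NWC: copy of NW with complex values. -/
def Stmt_NWC : Prop :=
  ∀ (N : ℕ) (b Λ : ℕ → ℂ), b 0 = 1 → (∀ m : ℕ, N < m → b m = 0) →
    (∀ m : ℕ, 1 ≤ m → (m : ℂ) * b m = ∑ k ∈ Icc 1 m, Λ k * b (m - k)) →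
    ∃ β : Fin N → ℂ,
      ∏ i, (X - C (β i)) = ∑ m ∈ range (N + 1), C (b m) * X ^ (N - m) ∧
      ∀ k : ℕ, 1 ≤ k → Λ k = - ∑ i, β i ^ k

/-- B0C: the `L`-function is a polynomial. -/
def Stmt_B0C : Prop :=
  ∀ (F K : Type) [Field F] [Fintype F] [Field K] [Fintype K] [DecidableEq K] [Algebra F K],
    ringChar F ≠ 2 → ∀ a : K, a ≠ 0 → (minpoly F a).natDegree = Module.finrank F K →
    ∀ ψ : MulChar F ℂ, ψ ≠ 1 → ∀ m, Module.finrank F K < m → msumC (XX ψ a) m = 0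

/-- FEC: the functional equation. -/
def Stmt_FEC : Prop :=
  ∀ (F K : Type) [Field F] [Fintype F] [DecidableEq F] [Field K] [Fintype K] [DecidableEq K]
    [Algebra F K], ringChar F ≠ 2 → Odd (Module.finrank F K) → ∀ a : K, a ≠ 0 →
    (minpoly F a).natDegree = Module.finrank F K → ∀ ψ : MulChar F ℂ, ψ ≠ 1 → qc F * ψ ≠ 1 →
    ∀ i j : ℕ, i + j = Module.finrank F K →
      msumC (XX ψ a) (i + j) * msumC (XX ψ⁻¹ a) j =
        (Fintype.card F : ℂ) ^ j * msumC (XX ψ a) i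

/-- FROBC (from B0C, EPC, LEC, NWC, PC): the eigenvalues. -/
def Stmt_FROBC : Prop :=
  ∀ (F K : Type) [Field F] [Fintype F] [DecidableEq F] [Field K] [Fintype K] [DecidableEq K]
    [Algebra F K], ringChar F ≠ 2 → Odd (Module.finrank F K) → ∀ a : K, a ≠ 0 →
    (minpoly F a).natDegree = Module.finrank F K → ∀ ψ : MulChar F ℂ, ψ ≠ 1 →
    ∀ n : ℕ, n = Module.finrank F K → ∃ β : Fin n → ℂ,
      ∏ i, (X - C (β i)) = ∑ m ∈ range (n + 1), C (msumC (XX ψ a) m) * X ^ (n - m) ∧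
      ∀ (E : Type) [Field E] [Fintype E] [DecidableEq E] [Algebra F E],
        ∑ t : E, (quadraticChar E (aeval t (minpoly F a)) : ℂ) * ψ (Algebra.norm F t) =
          - ∑ i, ((quadraticChar F (-1) : ℂ) * ψ (-1) * β i) ^ Module.finrank F E

/-- CUBC: the number of cube roots. -/
def Stmt_CUBC : Prop :=
  ∀ (F E : Type) [Field F] [Fintype F] [Field E] [Fintype E] [DecidableEq E] [Algebra F E],
    Fintype.card F % 6 = 1 → ∀ τ : MulChar F ℂ, τ ≠ 1 → τ ^ 3 = 1 → ∀ u : E,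
      ((univ.filter fun x : E => x ^ 3 = u).card : ℂ) =
        1 + τ (Algebra.norm F u) + τ⁻¹ (Algebra.norm F u)

/-- The Jacobi sum, as an eigenvalue of `y ^ 2 = x ^ 3 - 1`. -/
noncomputable def jj {F : Type} [Field F] [Fintype F] [DecidableEq F] (τ : MulChar F ℂ) : ℂ :=
  -(quadraticChar F (-1) : ℂ) * msumC (XX τ (1 : F)) 1

/-- EX3 (from FROBC, CUBC, FEC): the eigenvalues of the surface `w ^ 2 = D(t) (x ^ 3 - t)`. -/
def Stmt_EX3 : Prop :=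
  ∀ (F K : Type) [Field F] [Fintype F] [DecidableEq F] [Field K] [Fintype K] [DecidableEq K]
    [Algebra F K], Fintype.card F % 6 = 1 → Odd (Module.finrank F K) → ∀ a : K, a ≠ 0 →
    (minpoly F a).natDegree = Module.finrank F K → ∀ τ : MulChar F ℂ, τ ≠ 1 → τ ^ 3 = 1 →
    ∀ n : ℕ, n = Module.finrank F K → ∃ β γ : Fin n → ℂ,
      ∏ i, (X - C (β i)) =
        ∑ m ∈ range (n + 1), C (msumC (XX (qc F * τ) a) m) * X ^ (n - m) ∧
      ∏ i, (X - C (γ i)) =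
        ∑ m ∈ range (n + 1), C (msumC (XX (qc F * τ⁻¹) a) m) * X ^ (n - m) ∧
      (∀ (E : Type) [Field E] [Fintype E] [DecidableEq E] [Algebra F E],
        (NN E (X ^ 3 : F[X]) (minpoly F a) : ℂ) =
          ∑ i, (jj τ * β i) ^ Module.finrank F E +
            ∑ i, (jj τ⁻¹ * γ i) ^ Module.finrank F E) ∧
      (∀ i, ∃ j, β i * γ j = (Fintype.card F : ℂ)) ∧ (∀ j, ∃ i, β i * γ j = (Fintype.card F : ℂ)) ∧
      jj τ * jj τ⁻¹ = (Fintype.card F : ℂ) ∧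
      (∀ i, IsIntegral ℤ (jj τ * β i)) ∧ ∀ i, IsIntegral ℤ (jj τ⁻¹ * γ i)

/-- INTP: integral polynomials from integral power sums. -/
def Stmt_INTP : Prop :=
  ∀ (M : ℕ) (α : Fin M → ℂ), (∀ i, IsIntegral ℤ (α i)) →
    (∀ r : ℕ, 1 ≤ r → ∃ N : ℤ, (N : ℂ) = ∑ i, α i ^ r) →
      ∃ P : ℤ[X], P.map (Int.castRingHom ℂ) = ∏ i, (X - C (α i))

/-- MAINB (from EX3, INTP, PT, PAR1, PAR2, EXT): the second part of the theorem. -/
def Stmt_MAINB : Prop :=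
  ∀ (F : Type) [Field F] [Fintype F], Fintype.card F % 6 = 1 → ∀ k : ℕ, 1 ≤ k →
    ∀ D ∈ fam F (X ^ 3 : F[X]) (3 ^ k), ∃ α : Fin (2 * 3 ^ k) → ℂ, IsEig F (X ^ 3) D α

/-! ### Part 7: all codimensions for `m = X ^ 3` -/

open scoped Classical in
/-- MIN (from VEC, MODU, ORB2): if no component vanishes, a relation is a relation between norms. -/
def Stmt_MIN : Prop :=
  ∀ (ρ : AA →+* Om) (σ : AA ≃+* AA), (∀ x, ρ (σ x) = ρ x ^ 2) → ∀ (k q : ℕ), 1 ≤ k → Odd q →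
    ∀ (α' v : Fin (2 * 3 ^ k) → AA) (Z : (ZMod 2)[X]) (S : Finset Om),
      (∀ i, α' i ^ (3 * 3 ^ k) = 1 + 2 * v i) → (∀ i, ρ (v i) = aeval (ρ (α' i)) Z) →
      (∀ x, x ∈ S ↔ x ^ 3 ^ (k + 1) = 1 ∧ x ^ 3 ^ k ≠ 1) →
      (∀ i, ρ (α' i) ∈ S) → (Function.Injective fun i => ρ (α' i)) →
      (∀ x ∈ S, ∃ i, ρ (α' i) = x) → (∀ x ∈ S, aeval x⁻¹ Z = aeval x Z) →
      (∀ i j, α' i * α' j = (q : AA) ^ 2 ↔ ρ (α' j) = (ρ (α' i))⁻¹) →
      (∀ τ : AA ≃+* AA, ∀ i, ∃ j, τ (α' i) = α' j) →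
      (∀ i, 1 ≤ i → i ≤ k → ∃ r : ℕ, 3 ^ (k - i) ∣ r ∧ ¬ 3 ^ (k - i + 1) ∣ r ∧
        ∑ x ∈ S, x ^ r * aeval x Z ≠ 0) →
      ∀ s : Multiset (Fin (2 * 3 ^ k)), s ≠ 0 → ∀ M : ℕ, 0 < M →
      (s.map fun i => (α' i : ℂ)).prod ^ M = ((q : ℂ) ^ s.card) ^ M →
        (∃ i j t, s = i ::ₘ j ::ₘ t ∧ α' i * α' j = (q : AA) ^ 2) ∨
        ∃ N : ℕ, 0 < N ∧ ∀ ϖ : Om, ϖ ^ 3 = 1 → ϖ ≠ 1 →
          (∏ i ∈ univ.filter (fun i => ρ (α' i) ^ 3 ^ k = ϖ), ((α' i : ℂ) / q)) ^ N = 1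

/-- RHOP: a place above `p` of the ring of algebraic integers. -/
def Stmt_RHOP : Prop :=
  ∀ p : ℕ, ∀ [Fact p.Prime], Nonempty (AA →+* AlgebraicClosure (ZMod p))

/-- VALJ: one of the two Jacobi sums is a unit at a place above `p = 1` modulo `3`. -/
def Stmt_VALJ : Prop :=
  ∀ (F : Type) [Field F] [Fintype F] [DecidableEq F] (p : ℕ) [Fact p.Prime] [CharP F p],
    Fintype.card F % 6 = 1 → p % 3 = 1 → ∀ τ : MulChar F ℂ, τ ≠ 1 → τ ^ 3 = 1 →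
    ∀ (π : AA →+* AlgebraicClosure (ZMod p)) (x y : AA), (x : ℂ) = jj τ → (y : ℂ) = jj τ⁻¹ →
      π x ≠ 0 ∨ π y ≠ 0

/-- VALB: the last coefficient of the `L`-function is not a unit. -/
def Stmt_VALB : Prop :=
  ∀ (F K : Type) [Field F] [Fintype F] [DecidableEq F] [Field K] [Fintype K] [DecidableEq K]
    [Algebra F K] (p : ℕ) [Fact p.Prime] [CharP F p], Fintype.card F % 6 = 1 →
    Odd (Module.finrank F K) → 2 ≤ Module.finrank F K → ∀ a : K, a ≠ 0 →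
    (minpoly F a).natDegree = Module.finrank F K → ∀ τ : MulChar F ℂ, τ ≠ 1 → τ ^ 3 = 1 →
    ∀ (π : AA →+* AlgebraicClosure (ZMod p)) (x : AA),
      (x : ℂ) = msumC (XX (qc F * τ) a) (Module.finrank F K) → π x = 0

/-- BETA: reduction of the eigenvalues of one component modulo `2`. -/
def Stmt_BETA : Prop :=
  ∀ (F K : Type) [Field F] [Fintype F] [DecidableEq F] [Field K] [Fintype K] [DecidableEq K]
    [Algebra F K], Fintype.card F % 6 = 1 → ∀ k : ℕ, 1 ≤ k → Module.finrank F K = 3 ^ k →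
    ∀ a : K, NC a → (minpoly F a).natDegree = 3 ^ k → ∀ τ : MulChar F ℂ, τ ≠ 1 → τ ^ 3 = 1 →
    ∀ ρ : AA →+* Om, ∃ ϖ : Om, ϖ ^ 3 = 1 ∧ ϖ ≠ 1 ∧ ∀ β : Fin (3 ^ k) → ℂ,
      ∏ i, (X - C (β i)) = ∑ m ∈ range (3 ^ k + 1),
        C (msumC (XX (qc F * τ) a) m) * X ^ (3 ^ k - m) →
      ∀ (i : Fin (3 ^ k)) (x : AA), (x : ℂ) = jj τ * β i → ρ x ^ 3 ^ k = ϖ

/-- ONEC (from EX3, DATA3, MIN, FA, RHO, RHOP, VALJ, VALB, BETA, PSYM, FLAB): no condition on the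
codimension. -/
def Stmt_ONEC : Prop :=
  ∀ (F K : Type) [Field F] [Fintype F] [Field K] [Fintype K] [DecidableEq K] [Algebra F K],
    Fintype.card F % 6 = 1 → ringChar F % 3 = 1 → ∀ k : ℕ, 1 ≤ k → Module.finrank F K = 3 ^ k →
    ∀ w : K, NC w → ∀ α : Fin (2 * 3 ^ k) → ℂ, IsEig F (X ^ 3) (minpoly F w) α →
    (∀ i, 1 ≤ i → i ≤ k → ¬ BadAt F k i w) → TateS (Fintype.card F) α fun _ => True

/-- MAINC (from ONEC, CNTB, PAR1, PAR2, NCC, EXT): the third part of the theorem. -/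
def Stmt_MAINC : Prop :=
  ∀ (F : Type) [Field F] [Fintype F], Fintype.card F % 6 = 1 → ringChar F % 3 = 1 →
    ∀ k : ℕ, 4 ≤ k →
      ((exceptional F (X ^ 3) (3 ^ k) fun _ => True).ncard : ℝ) ≤
        1 / 3 * ((fam F (X ^ 3 : F[X]) (3 ^ k)).ncard : ℝ)

end Pool.Agent.Work.ES
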